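import Pool.Agent.Q225.IC.Stm

/-!
# MP_ea601a_lc (project IC of helper225): the spread lemmas T1 and T2

* `dv124` : the variational inequality (from the log-sum inequality LS).
* `t_T1 (hLS : S_LS) (hGEN : S_GEN) : S_T1`
* `t_T2 (hLS : S_LS) (hCNT : S_CNT) : S_T2`
-/

open Finset

namespace Pool.Agent.Q225.IC

/-- `Nc` is positive -/
theorem Nc_pos124 (P : Type) [Fintype P] (r : ℕ) (hr : 1 ≤ r) (hP : 2 ≤ Fintype.card P) : 0 < Nc P r := by
  unfold Nc
  have h1 : (2 : ℝ) ≤ (Fintype.card P : ℝ) := by exact_mod_cast hP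
  have h2 : (1 : ℝ) ≤ (r : ℝ) := by exact_mod_cast hr
  have h3 : (0 : ℝ) < (Fintype.card P : ℝ) - 1 := by linarith
  have h4 : (0 : ℝ) < (r : ℝ) := by linarith
  positivity

/-- variational inequality for the relative entropy -/
theorem dv124 (hLS : S_LS) {P : Type} [Fintype P] [DecidableEq P] {r : ℕ} (hr : 1 ≤ r)
    (hP : 2 ≤ Fintype.card P) {c : P} {u : P → Tb P r → ℝ} {m D : ℝ} (hu : Sp c u m D)
    (g : P → Tb P r → ℝ) :
    (∑ v, ∑ z, u v z * g v z) ≤
      D * m + m * Real.log ((∑ v, ∑ z : Tb P r, if ok c v z then Real.exp (g v z) else 0) / Nc P r) := by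
  obtain ⟨h0, hok, hsum, hm, hD⟩ := hu
  have hN := Nc_pos124 P r hr hP
  set Z : ℝ := ∑ v, ∑ z : Tb P r, if ok c v z then Real.exp (g v z) else 0 with hZ
  have key := hLS (P × Tb P r) (fun t => u t.1 t.2)
    (fun t => if ok c t.1 t.2 then Real.exp (g t.1 t.2) * (m / Nc P r) else 0)
    (fun t => h0 _ _)
    (fun t => by
      show 0 ≤ (if ok c t.1 t.2 then Real.exp (g t.1 t.2) * (m / Nc P r) else 0)
      split_ifs
      · positivity
      · exact le_rfl)
    (fun t ht => by
      show 0 < (if ok c t.1 t.2 then Real.exp (g t.1 t.2) * (m / Nc P r) else 0)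
      have h : ok c t.1 t.2 := by
        by_contra h
        exact ht (hok _ _ h)
      rw [if_pos h]
      positivity)
  have e1 : (∑ t : P × Tb P r, u t.1 t.2) = m := by
    rw [Fintype.sum_prod_type]
    exact hsum
  have e2 : (∑ t : P × Tb P r, (if ok c t.1 t.2 then Real.exp (g t.1 t.2) * (m / Nc P r) else 0))
      = Z * (m / Nc P r) := by
    rw [Fintype.sum_prod_type, hZ, Finset.sum_mul]
    refine Finset.sum_congr rfl fun v _ => ?_
    rw [Finset.sum_mul]
    refine Finset.sum_congr rfl fun z _ => ?_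
    split_ifs
    · rfl
    · simp
  have e3 : (∑ t : P × Tb P r, u t.1 t.2 * Real.log (u t.1 t.2 /
      (if ok c t.1 t.2 then Real.exp (g t.1 t.2) * (m / Nc P r) else 0)))
      = (∑ v, ∑ z, u v z * Real.log (u v z * Nc P r / m)) - ∑ v, ∑ z, u v z * g v z := by
    rw [Fintype.sum_prod_type, ← Finset.sum_sub_distrib]
    refine Finset.sum_congr rfl fun v _ => ?_
    rw [← Finset.sum_sub_distrib]
    refine Finset.sum_congr rfl fun z _ => ?_
    by_cases h : u v z = 0
    · simp [h]
    · have hk : ok c v z := by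
        by_contra h'
        exact h (hok _ _ h')
      have hp : 0 < u v z := lt_of_le_of_ne (h0 v z) (Ne.symm h)
      show u v z * Real.log (u v z / (if ok c v z then Real.exp (g v z) * (m / Nc P r) else 0)) = _
      rw [if_pos hk]
      have : u v z / (Real.exp (g v z) * (m / Nc P r)) = (u v z * Nc P r / m) / Real.exp (g v z) := by
        field_simp
      rw [this, Real.log_div (by positivity) (by positivity), Real.log_exp]
      ring
  rw [e1, e2, e3] at key
  have hZ0 : 0 < Z := by
    by_contra hZ0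
    have hZn : 0 ≤ Z := by
      rw [hZ]
      refine Finset.sum_nonneg fun v _ => Finset.sum_nonneg fun z _ => ?_
      split_ifs
      · positivity
      · exact le_rfl
    have hZe : Z = 0 := le_antisymm (not_lt.1 hZ0) hZn
    have hall : ∀ (v : P) (z : Tb P r), ¬ ok c v z := by
      intro v z hk
      have h1 : (∑ z : Tb P r, if ok c v z then Real.exp (g v z) else 0) = 0 := by
        have := (Finset.sum_eq_zero_iff_of_nonneg (s := (univ : Finset P))
          (f := fun v => ∑ z : Tb P r, if ok c v z then Real.exp (g v z) else 0)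
          (fun v _ => Finset.sum_nonneg fun z _ => by
            split_ifs
            · positivity
            · exact le_rfl)).1 (by rw [← hZ]; exact hZe)
        exact this v (mem_univ _)
      have h2 := (Finset.sum_eq_zero_iff_of_nonneg (s := (univ : Finset (Tb P r)))
          (f := fun z => if ok c v z then Real.exp (g v z) else 0)
          (fun z _ => by
            show 0 ≤ (if ok c v z then Real.exp (g v z) else 0)
            split_ifs
            · positivity
            · exact le_rfl)).1 h1 z (mem_univ _)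
      have h3 : (if ok c v z then Real.exp (g v z) else 0) = 0 := h2
      rw [if_pos hk] at h3
      exact (Real.exp_pos _).ne' h3
    have : m = 0 := by
      rw [← hsum]
      exact Finset.sum_eq_zero fun v _ => Finset.sum_eq_zero fun z _ => hok v z (hall v z)
    exact hm.ne' this
  have e4 : m / (Z * (m / Nc P r)) = (Z / Nc P r)⁻¹ := by
    field_simp
  rw [e4, Real.log_inv] at key
  linarith

/-- T2 -/
theorem t_T2 (hLS : S_LS) (hCNT : S_CNT) : S_T2 := by
  intro P _ _ r c u m D K V hr hP hu hVK hK hKn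
  have hN := Nc_pos124 P r hr hP
  obtain ⟨h0, hok, hsum, hm, hD⟩ := id hu
  have hK0 : 0 < K := by linarith
  have hn1 : 0 < (Fintype.card P : ℝ) - 1 := by linarith
  set L : ℝ := Real.log (((Fintype.card P : ℝ) - 1) / K) with hL
  have hexpL : Real.exp L = ((Fintype.card P : ℝ) - 1) / K := Real.exp_log (by positivity)
  have key := dv124 hLS hr hP hu (fun v _ => if v ∈ V then L else 0)
  have e1 : (∑ v, ∑ z, u v z * (if v ∈ V then L else 0)) = (∑ v ∈ V, ∑ z, u v z) * L := by
    rw [Finset.sum_mul]
    have : ∀ v : P, (∑ z, u v z * (if v ∈ V then L else 0)) = if v ∈ V then (∑ z, u v z) * L else 0 := by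
      intro v
      split_ifs with h
      · rw [Finset.sum_mul]
      · simp
    simp_rw [this]
    rw [Finset.sum_ite_mem, Finset.univ_inter]
  have e2 : ∀ v : P, (∑ z : Tb P r, if ok c v z then Real.exp (if v ∈ V then L else 0) else 0)
      = if v ≠ c then (r * ((r : ℝ) + 1) ^ (Fintype.card P - 2)) * Real.exp (if v ∈ V then L else 0) else 0 := by
    intro v
    by_cases hv : v = c
    · rw [if_neg (c := v ≠ c) (by simpa using hv)]
      refine Finset.sum_eq_zero fun z _ => ?_
      rw [if_neg (c := ok c v z)]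
      intro h
      exact h.1 hv
    · rw [if_pos hv, ← Finset.sum_filter, Finset.sum_const, nsmul_eq_mul]
      have h1 : (univ.filter (fun z : Tb P r => ok c v z)) =
          univ.filter (fun z : Tb P r => z c = 0 ∧ z v ≠ 0) := by
        ext z
        simp [ok, hv]
      rw [h1, (hCNT P r c v hv).1]
      push_cast
      ring
  have e3 : (∑ v, ∑ z : Tb P r, if ok c v z then Real.exp (if v ∈ V then L else 0) else 0) ≤ 2 * Nc P r := by
    simp_rw [e2]
    have h1 : ∀ v : P, (if v ≠ c then (r * ((r : ℝ) + 1) ^ (Fintype.card P - 2)) *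
        Real.exp (if v ∈ V then L else 0) else 0) ≤
        (r * ((r : ℝ) + 1) ^ (Fintype.card P - 2)) * ((if v ≠ c then 1 else 0) +
          (if v ∈ V then ((Fintype.card P : ℝ) - 1) / K else 0)) := by
      intro v
      have hpos : (0 : ℝ) ≤ (r * ((r : ℝ) + 1) ^ (Fintype.card P - 2)) := by positivity
      have hdiv : 0 ≤ ((Fintype.card P : ℝ) - 1) / K := by positivity
      by_cases hv : v ≠ c
      · rw [if_pos hv, if_pos hv]
        refine mul_le_mul_of_nonneg_left ?_ hpos
        by_cases hV : v ∈ V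
        · rw [if_pos hV, if_pos hV, hexpL]
          linarith
        · rw [if_neg hV, if_neg hV, Real.exp_zero]
          linarith
      · rw [if_neg hv, if_neg hv]
        refine mul_nonneg hpos ?_
        split_ifs
        · linarith
        · linarith
    refine (Finset.sum_le_sum fun v _ => h1 v).trans ?_
    rw [← Finset.mul_sum, Finset.sum_add_distrib]
    have h2 : (∑ v : P, (if v ≠ c then (1 : ℝ) else 0)) = (Fintype.card P : ℝ) - 1 := by
      have h3 : ∀ v : P, (if v ≠ c then (1 : ℝ) else 0) = 1 - (if v = c then 1 else 0) := by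
        intro v
        by_cases hv : v = c <;> simp [hv]
      simp_rw [h3]
      rw [Finset.sum_sub_distrib, Finset.sum_ite_eq']
      simp
    have h4 : (∑ v : P, (if v ∈ V then ((Fintype.card P : ℝ) - 1) / K else 0)) =
        (V.card : ℝ) * (((Fintype.card P : ℝ) - 1) / K) := by
      rw [Finset.sum_ite_mem, Finset.univ_inter, Finset.sum_const, nsmul_eq_mul]
    rw [h2, h4]
    have h5 : (V.card : ℝ) * (((Fintype.card P : ℝ) - 1) / K) ≤ (Fintype.card P : ℝ) - 1 := by
      rw [mul_div_assoc', div_le_iff₀ hK0]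
      nlinarith
    unfold Nc
    have hpos : (0 : ℝ) ≤ (r * ((r : ℝ) + 1) ^ (Fintype.card P - 2)) := by positivity
    nlinarith [mul_le_mul_of_nonneg_left h5 hpos]
  have hZpos : 0 < (∑ v, ∑ z : Tb P r, if ok c v z then Real.exp (if v ∈ V then L else 0) else 0) := by
    have h1 : 1 < Fintype.card P := by omega
    obtain ⟨v, hv⟩ := Fintype.exists_ne_of_one_lt_card h1 c
    have h2 : 0 < (∑ z : Tb P r, if ok c v z then Real.exp (if v ∈ V then L else 0) else 0) := by
      rw [e2, if_pos hv]
      have : (0 : ℝ) < r := by exact_mod_cast hr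
      positivity
    refine lt_of_lt_of_le h2 ?_
    refine Finset.single_le_sum (f := fun v => ∑ z : Tb P r, if ok c v z then Real.exp (if v ∈ V then L else 0) else 0)
      (fun v _ => Finset.sum_nonneg fun z _ => ?_) (mem_univ v)
    split_ifs <;> positivity
  rw [e1] at key
  have h6 : Real.log ((∑ v, ∑ z : Tb P r, if ok c v z then Real.exp (if v ∈ V then L else 0) else 0) / Nc P r) ≤ 1 := by
    have h7 : (∑ v, ∑ z : Tb P r, if ok c v z then Real.exp (if v ∈ V then L else 0) else 0) / Nc P r ≤ 2 := by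
      rw [div_le_iff₀ hN]
      exact e3
    have h8 := Real.log_le_log (by positivity) h7
    have h9 : Real.log 2 ≤ 1 := by
      have := Real.log_two_lt_d9
      linarith
    linarith
  nlinarith [mul_le_mul_of_nonneg_left h6 hm.le]

/-- T1 -/
theorem t_T1 (hLS : S_LS) (hGEN : S_GEN) : S_T1 := by
  intro P _ _ r c u m D δ V hr hP hu hδ hδ1 hcV hV
  have hN := Nc_pos124 P r hr hP
  obtain ⟨h0, hok, hsum, hm, hD⟩ := id hu
  set θ : ℝ := δ / 2 with hθ
  have hθ0 : 0 < θ := by positivity
  have hr1 : (1 : ℝ) ≤ (r : ℝ) := by exact_mod_cast hr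
  have hn2 : (2 : ℝ) ≤ (Fintype.card P : ℝ) := by exact_mod_cast hP
  have hn1 : 0 < (Fintype.card P : ℝ) - 1 := by linarith
  have hR : 0 < (r : ℝ) + 1 := by linarith
  have key := dv124 hLS hr hP hu (fun _ z => ∑ v ∈ V, (if z v = 0 then -θ else 0))
  -- left side
  have e1 : (∑ v1, ∑ z, u v1 z * ∑ v ∈ V, (if z v = 0 then -θ else 0)) =
      -θ * ∑ v ∈ V, ∑ v1, ∑ z, (if z v = 0 then u v1 z else 0) := by
    rw [Finset.sum_comm' (s := V) (t := fun _ => univ) (s' := fun _ => V) (t' := univ)
      (h := fun x y => by simp), Finset.mul_sum]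
    refine Finset.sum_congr rfl fun v1 _ => ?_
    rw [Finset.sum_comm' (s := V) (t := fun _ => univ) (s' := fun _ => V) (t' := univ)
      (h := fun x y => by simp), Finset.mul_sum]
    refine Finset.sum_congr rfl fun z _ => ?_
    rw [Finset.mul_sum, Finset.mul_sum]
    refine Finset.sum_congr rfl fun v _ => ?_
    split_ifs
    · ring
    · ring
  have e2 : (∑ v ∈ V, ∑ v1, ∑ z, (if z v = 0 then u v1 z else 0)) ≤
      (V.card : ℝ) * ((1 - δ / 2) / (r + 1) * m) := by
    refine (Finset.sum_le_sum fun v hv => hV v hv).trans ?_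
    rw [Finset.sum_const, nsmul_eq_mul]
  -- partition function
  set x : ℝ := Real.exp (-θ) with hx
  have hx0 : 0 < x := Real.exp_pos _
  have e3 : (∑ v, ∑ z : Tb P r, if ok c v z then Real.exp (∑ v ∈ V, (if z v = 0 then -θ else 0)) else 0) ≤
      ((Fintype.card P : ℝ) - 1) * (((r : ℝ) + 1) ^ (Fintype.card P - 1) * ((x + r) / (r + 1)) ^ V.card) := by
    have h1 : ∀ v : P, (∑ z : Tb P r, if ok c v z then Real.exp (∑ v ∈ V, (if z v = 0 then -θ else 0)) else 0) ≤
        (if v ≠ c then 1 else 0) * (((r : ℝ) + 1) ^ (Fintype.card P - 1) * ((x + r) / (r + 1)) ^ V.card) := by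
      intro v
      by_cases hv : v = c
      · rw [if_neg (by simpa using hv), zero_mul]
        refine le_of_eq (Finset.sum_eq_zero fun z _ => ?_)
        rw [if_neg]
        intro h
        exact h.1 hv
      · rw [if_pos hv, one_mul, ← hGEN P r c V x hcV]
        refine Finset.sum_le_sum fun z _ => ?_
        have h2 : Real.exp (∑ v ∈ V, (if z v = 0 then -θ else 0)) = ∏ v ∈ V, (if z v = 0 then x else 1) := by
          rw [Real.exp_sum]
          refine Finset.prod_congr rfl fun v _ => ?_
          split_ifs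
          · rfl
          · exact Real.exp_zero
        rw [h2]
        have h3 : 0 ≤ ∏ v ∈ V, (if z v = 0 then x else 1) := by
          refine Finset.prod_nonneg fun v _ => ?_
          split_ifs
          · exact hx0.le
          · exact zero_le_one
        by_cases hk : ok c v z
        · rw [if_pos hk, if_pos hk.2.1]
        · rw [if_neg hk]
          split_ifs
          · exact h3
          · exact le_rfl
    refine (Finset.sum_le_sum fun v _ => h1 v).trans ?_
    rw [← Finset.sum_mul]
    have h2 : (∑ v : P, (if v ≠ c then (1 : ℝ) else 0)) = (Fintype.card P : ℝ) - 1 := by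
      have h3 : ∀ v : P, (if v ≠ c then (1 : ℝ) else 0) = 1 - (if v = c then 1 else 0) := by
        intro v
        by_cases hv : v = c <;> simp [hv]
      simp_rw [h3]
      rw [Finset.sum_sub_distrib, Finset.sum_ite_eq']
      simp
    rw [h2]
  have e4 : (∑ v, ∑ z : Tb P r, if ok c v z then Real.exp (∑ v ∈ V, (if z v = 0 then -θ else 0)) else 0) / Nc P r ≤
      2 * ((x + r) / (r + 1)) ^ V.card := by
    rw [div_le_iff₀ hN]
    refine e3.trans ?_
    unfold Nc
    have h1 : ((r : ℝ) + 1) ^ (Fintype.card P - 1) = ((r : ℝ) + 1) ^ (Fintype.card P - 2) * ((r : ℝ) + 1) := by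
      rw [← pow_succ]
      have h2 : Fintype.card P - 1 = Fintype.card P - 2 + 1 := by omega
      rw [h2]
    rw [h1]
    have h3 : 0 ≤ ((x + r) / (r + 1)) ^ V.card * ((Fintype.card P : ℝ) - 1) *
        ((r : ℝ) + 1) ^ (Fintype.card P - 2) := by
      positivity
    nlinarith
  have hZpos : 0 < (∑ v, ∑ z : Tb P r, if ok c v z then Real.exp (∑ v ∈ V, (if z v = 0 then -θ else 0)) else 0) := by
    by_contra hcon
    have hall : ∀ (v : P) (z : Tb P r), ¬ ok c v z := by
      intro v z hk
      apply hcon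
      have h2 : 0 < (if ok c v z then Real.exp (∑ v ∈ V, (if z v = 0 then -θ else 0)) else 0) := by
        rw [if_pos hk]
        positivity
      refine lt_of_lt_of_le h2 ?_
      refine le_trans ?_ (Finset.single_le_sum (f := fun v => ∑ z : Tb P r, if ok c v z then
        Real.exp (∑ v ∈ V, (if z v = 0 then -θ else 0)) else 0)
        (fun v _ => Finset.sum_nonneg fun z _ => by split_ifs <;> positivity) (mem_univ v))
      exact Finset.single_le_sum (f := fun z : Tb P r => if ok c v z then
        Real.exp (∑ v ∈ V, (if z v = 0 then -θ else 0)) else 0)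
        (fun z _ => by
          show 0 ≤ (if ok c v z then Real.exp (∑ v ∈ V, (if z v = 0 then -θ else 0)) else 0)
          split_ifs <;> positivity) (mem_univ z)
    have : m = 0 := by
      rw [← hsum]
      exact Finset.sum_eq_zero fun v _ => Finset.sum_eq_zero fun z _ => hok v z (hall v z)
    exact hm.ne' this
  have e5 : Real.log ((∑ v, ∑ z : Tb P r, if ok c v z then Real.exp (∑ v ∈ V, (if z v = 0 then -θ else 0)) else 0) /
      Nc P r) ≤ 1 - (V.card : ℝ) * ((1 - x) / (r + 1)) := by
    have h1 := Real.log_le_log (div_pos hZpos hN) e4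
    have hq : 0 < (x + r) / ((r : ℝ) + 1) := by positivity
    rw [Real.log_mul (by norm_num) (by positivity), Real.log_pow] at h1
    have h2 : Real.log 2 ≤ 1 := by
      have := Real.log_two_lt_d9
      linarith
    have h3 : Real.log ((x + r) / ((r : ℝ) + 1)) ≤ -((1 - x) / (r + 1)) := by
      have h4 := Real.log_le_sub_one_of_pos hq
      have h5 : (x + r) / ((r : ℝ) + 1) - 1 = -((1 - x) / (r + 1)) := by
        field_simp
        ring
      linarith
    have h6 : (0 : ℝ) ≤ (V.card : ℝ) := by positivity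
    nlinarith [mul_le_mul_of_nonneg_left h3 h6]
  rw [e1] at key
  -- the inequality `1 - exp (-θ) ≥ θ - θ^2/2`
  have hexp : θ - θ ^ 2 / 2 ≤ 1 - x := by
    have h1 : 1 + θ + θ ^ 2 / 2 ≤ Real.exp θ := Real.quadratic_le_exp_of_nonneg hθ0.le
    have h2 : x * Real.exp θ = 1 := by
      rw [hx, ← Real.exp_add]
      simp
    have h3 : x * (1 + θ + θ ^ 2 / 2) ≤ 1 := by
      calc x * (1 + θ + θ ^ 2 / 2) ≤ x * Real.exp θ := mul_le_mul_of_nonneg_left h1 hx0.le
        _ = 1 := h2
    have h4 : 1 ≤ (1 - θ + θ ^ 2 / 2) * (1 + θ + θ ^ 2 / 2) := by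
      nlinarith [sq_nonneg (θ ^ 2), sq_nonneg θ]
    have h5 : 0 < 1 + θ + θ ^ 2 / 2 := by positivity
    have h6 : x * (1 + θ + θ ^ 2 / 2) ≤ (1 - θ + θ ^ 2 / 2) * (1 + θ + θ ^ 2 / 2) := h3.trans h4
    have h7 := le_of_mul_le_mul_right h6 h5
    linarith
  have h8 : -θ * ((V.card : ℝ) * ((1 - δ / 2) / (r + 1) * m)) ≤
      D * m + m * (1 - (V.card : ℝ) * ((1 - x) / (r + 1))) := by
    have h9 := mul_le_mul_of_nonneg_left e2 hθ0.le
    have h10 := mul_le_mul_of_nonneg_left e5 hm.le
    linarith
  have h11 : (V.card : ℝ) * (((1 - x) - θ * (1 - δ / 2)) / (r + 1)) ≤ D + 1 := by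
    have h12 : m * ((V.card : ℝ) * (((1 - x) - θ * (1 - δ / 2)) / (r + 1))) ≤ m * (D + 1) := by
      have h13 : m * ((V.card : ℝ) * (((1 - x) - θ * (1 - δ / 2)) / (r + 1))) =
          m * ((V.card : ℝ) * ((1 - x) / (r + 1))) - θ * ((V.card : ℝ) * ((1 - δ / 2) / (r + 1) * m)) := by
        ring
      rw [h13]
      linarith
    exact le_of_mul_le_mul_left h12 hm
  refine le_trans ?_ h11
  rw [mul_div_assoc]
  refine mul_le_mul_of_nonneg_left ?_ (by positivity)
  rw [div_le_div_iff₀ (by positivity) hR]
  have h14 : δ ^ 2 / 8 ≤ (1 - x) - θ * (1 - δ / 2) := by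
    rw [hθ] at hexp ⊢
    nlinarith
  nlinarith

end Pool.Agent.Q225.IC
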